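import Pool.Agent.MP_bd94e8_al.H63B.Loc2

/-!
Flags exist after a block diagonal conjugation.
-/

set_option autoImplicit false
set_option linter.unusedSectionVars false
set_option linter.unusedVariables false
set_option linter.unusedSimpArgs false

namespace Pool.Agent.MP_bd94e8_al.H89

open Module Function

namespace LocA

section blocks
variable {F Pt ι : Type} [Field F] [Fintype Pt] [DecidableEq Pt] [DecidableEq ι] (vt : Pt → ι)

/-- The inclusion of the points of a vertex. -/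
def al (F : Type) [Field F] (vt : Pt → ι) (i : ι) : Matrix Pt {p // vt p = i} F :=
  (1 : Matrix Pt Pt F).submatrix id Subtype.val

/-- The projection to the points of a vertex. -/
def ga (F : Type) [Field F] (vt : Pt → ι) (i : ι) : Matrix {p // vt p = i} Pt F :=
  (1 : Matrix Pt Pt F).submatrix Subtype.val id

theorem ga_mul {T : Type} (i : ι) (b : Matrix Pt T F) (q : {p // vt p = i}) (p : T) :
    (ga F vt i * b) q p = b q.1 p := by
  change ((1 : Matrix Pt Pt F) * b) q.1 p = _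
  rw [Matrix.one_mul]

theorem mul_al {T : Type} (i : ι) (b : Matrix T Pt F) (q : T) (p : {p // vt p = i}) :
    (b * al F vt i) q p = b q p.1 := by
  change (b * (1 : Matrix Pt Pt F)) q p.1 = _
  rw [Matrix.mul_one]

theorem ga_mul_al (i : ι) (b : Matrix Pt Pt F) (q p : {p // vt p = i}) :
    (ga F vt i * b * al F vt i) q p = b q.1 p.1 := by rw [mul_al, ga_mul]

theorem ga_al (i : ι) : ga F vt i * al F vt i = 1 := by
  ext q p
  rw [ga_mul]
  simp [al, Matrix.one_apply, Subtype.ext_iff]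

theorem ga_al_ne {i j : ι} (h : j ≠ i) : ga F vt j * al F vt i = 0 := by
  ext q p
  rw [ga_mul]
  have : q.1 ≠ p.1 := fun e => h (by rw [← q.2, e, p.2])
  simp [al, Matrix.one_apply, this]

theorem al_mul_pos {T : Type} (i : ι) (r : Matrix {p // vt p = i} T F) (q : {p // vt p = i})
    (p : T) : (al F vt i * r) q.1 p = r q p := by
  rw [← ga_mul vt i (al F vt i * r), ← Matrix.mul_assoc, ga_al, Matrix.one_mul]

theorem al_mul_neg {T : Type} (i : ι) (r : Matrix {p // vt p = i} T F) {q : Pt} (hq : vt q ≠ i)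
    (p : T) : (al F vt i * r) q p = 0 := by
  have := ga_mul vt (vt q) (al F vt i * r) ⟨q, rfl⟩ p
  rw [← Matrix.mul_assoc, ga_al_ne vt hq, Matrix.zero_mul] at this
  exact this.symm

theorem mul_ga_pos {T : Type} (i : ι) (r : Matrix T {p // vt p = i} F) (q : T)
    (p : {p // vt p = i}) : (r * ga F vt i) q p.1 = r q p := by
  rw [← mul_al vt i (r * ga F vt i), Matrix.mul_assoc, ga_al, Matrix.mul_one]

theorem mul_ga_neg {T : Type} (i : ι) (r : Matrix T {p // vt p = i} F) (q : T) {p : Pt}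
    (hp : vt p ≠ i) : (r * ga F vt i) q p = 0 := by
  have := mul_al vt (vt p) (r * ga F vt i) q ⟨p, rfl⟩
  rw [Matrix.mul_assoc, ga_al_ne vt (Ne.symm hp), Matrix.mul_zero] at this
  exact this.symm

/-- The extension by zero of a block. -/
def ex (i : ι) (r : Matrix {p // vt p = i} {p // vt p = i} F) : Matrix Pt Pt F :=
  al F vt i * r * ga F vt i

theorem ex_pos (i : ι) (r : Matrix {p // vt p = i} {p // vt p = i} F) (q p : {p // vt p = i}) :
    ex vt i r q.1 p.1 = r q p := by rw [ex, mul_ga_pos, al_mul_pos]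

theorem ex_ne {i : ι} {r : Matrix {p // vt p = i} {p // vt p = i} F} {q p : Pt}
    (h : ex vt i r q p ≠ 0) : vt p = i ∧ vt q = i := by
  have hp : vt p = i := by
    by_contra e
    exact h (mul_ga_neg vt i _ q e)
  refine ⟨hp, ?_⟩
  by_contra e
  apply h
  rw [ex, Matrix.mul_assoc]
  exact al_mul_neg vt i _ e p

theorem ex_mul (i : ι) (r s : Matrix {p // vt p = i} {p // vt p = i} F) :
    ex vt i (r * s) = ex vt i r * ex vt i s := by
  simp only [ex, Matrix.mul_assoc]
  rw [← Matrix.mul_assoc (ga F vt i), ga_al, Matrix.one_mul]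

theorem ex_add (i : ι) (r s : Matrix {p // vt p = i} {p // vt p = i} F) :
    ex vt i (r + s) = ex vt i r + ex vt i s := by
  simp only [ex, Matrix.mul_add, Matrix.add_mul]

theorem ex_sub (i : ι) (r s : Matrix {p // vt p = i} {p // vt p = i} F) :
    ex vt i (r - s) = ex vt i r - ex vt i s := by
  simp only [ex, Matrix.mul_sub, Matrix.sub_mul]

theorem ex_smul {k : Type} [Field k] [Algebra k F] (i : ι) (c : k)
    (r : Matrix {p // vt p = i} {p // vt p = i} F) : ex vt i (c • r) = c • ex vt i r := by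
  simp only [ex, Matrix.mul_smul, Matrix.smul_mul]

theorem re_ex (i : ι) (r : Matrix {p // vt p = i} {p // vt p = i} F) :
    ga F vt i * ex vt i r * al F vt i = r := by
  ext q p
  rw [ga_mul_al, ex_pos]

theorem ex_re (i : ι) {b : Matrix Pt Pt F} (hb : ∀ q p, b q p ≠ 0 → vt p = i ∧ vt q = i) :
    ex vt i (ga F vt i * b * al F vt i) = b := by
  ext q p
  by_cases h : vt p = i ∧ vt q = i
  · exact (ex_pos vt i _ ⟨q, h.2⟩ ⟨p, h.1⟩).trans (ga_mul_al vt i b _ _)
  · have h1 : b q p = 0 := by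
      by_contra e; exact h (hb q p e)
    rw [h1]
    by_contra e; exact h (ex_ne vt e)

theorem ex_pow (i : ι) (r : Matrix {p // vt p = i} {p // vt p = i} F) {m : ℕ} (hm : m ≠ 0) :
    ex vt i (r ^ m) = ex vt i r ^ m := by
  obtain ⟨m, rfl⟩ := Nat.exists_eq_succ_of_ne_zero hm
  clear hm
  induction m with
  | zero => simp
  | succ m ih => rw [pow_succ, ex_mul, ih, ← pow_succ]

theorem nil_of_ex (i : ι) {r : Matrix {p // vt p = i} {p // vt p = i} F}
    (h : IsNilpotent (ex vt i r)) : IsNilpotent r := by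
  obtain ⟨m, hm⟩ := h
  refine ⟨m + 1, ?_⟩
  rw [← re_ex vt i (r ^ (m + 1)), ex_pow vt i r (Nat.succ_ne_zero m), pow_succ, hm]
  simp

variable [Fintype ι]

/-- A block diagonal matrix. -/
def bd (g : ∀ i, Matrix {p // vt p = i} {p // vt p = i} F) : Matrix Pt Pt F := ∑ i, ex vt i (g i)

theorem bd_ne {g : ∀ i, Matrix {p // vt p = i} {p // vt p = i} F} {q p : Pt}
    (h : bd vt g q p ≠ 0) : vt q = vt p := by
  rw [bd, Matrix.sum_apply] at h
  obtain ⟨i, -, hi⟩ := Finset.exists_ne_zero_of_sum_ne_zero h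
  rw [(ex_ne vt hi).1, (ex_ne vt hi).2]

theorem bd_al (g : ∀ i, Matrix {p // vt p = i} {p // vt p = i} F) (i : ι) :
    bd vt g * al F vt i = al F vt i * g i := by
  rw [bd, Matrix.sum_mul, Finset.sum_eq_single i (fun j _ hj => by
    rw [ex, Matrix.mul_assoc, ga_al_ne vt hj, Matrix.mul_zero]) (by simp), ex, Matrix.mul_assoc,
    ga_al, Matrix.mul_one]

theorem ga_bd (g : ∀ i, Matrix {p // vt p = i} {p // vt p = i} F) (i : ι) :
    ga F vt i * bd vt g = g i * ga F vt i := by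
  rw [bd, Matrix.mul_sum, Finset.sum_eq_single i (fun j _ hj => by
    rw [ex, ← Matrix.mul_assoc, ← Matrix.mul_assoc, ga_al_ne vt (Ne.symm hj), Matrix.zero_mul,
      Matrix.zero_mul]) (by simp), ex, ← Matrix.mul_assoc, ← Matrix.mul_assoc,
    ga_al, Matrix.one_mul]

theorem bd_mul {g g' : ∀ i, Matrix {p // vt p = i} {p // vt p = i} F} (h : ∀ i, g i * g' i = 1) :
    bd vt g * bd vt g' = 1 := by
  ext q p
  rw [← mul_al vt (vt p) (bd vt g * bd vt g') q ⟨p, rfl⟩, Matrix.mul_assoc, bd_al,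
    ← Matrix.mul_assoc, bd_al, Matrix.mul_assoc, h, Matrix.mul_one]
  rfl

theorem bd_ex (g g' : ∀ i, Matrix {p // vt p = i} {p // vt p = i} F) (i : ι)
    (r : Matrix {p // vt p = i} {p // vt p = i} F) :
    bd vt g' * ex vt i r * bd vt g = ex vt i (g' i * r * g i) := by
  rw [ex, ex, ← Matrix.mul_assoc, ← Matrix.mul_assoc, bd_al, Matrix.mul_assoc _ (ga F vt i), ga_bd]
  simp only [Matrix.mul_assoc]

end blocks

section prob
variable {k F : Type} [Field k] [Field F] [Algebra k F] [FiniteDimensional k F]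
  {Pt ι : Type} [Fintype Pt] [DecidableEq Pt] [DecidableEq ι] (P : Prob k F Pt ι Unit)

theorem ex_one (i : ι) : ex P.vt i (1 : Matrix _ _ F) = P.e i := by
  ext q p
  by_cases hp : P.vt p = i
  · rw [P.e_pos q hp, ex, Matrix.mul_one]
    exact mul_ga_pos P.vt i _ q ⟨p, hp⟩
  · rw [P.e_neg q hp]
    exact mul_ga_neg P.vt i _ q hp

/-- The algebra of a vertex. -/
def Rz (i : ι) : Subalgebra k (Matrix {p // P.vt p = i} {p // P.vt p = i} F) where
  carrier := {r | ex P.vt i r ∈ P.B}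
  mul_mem' := fun {r s} hr hs => by
    change ex P.vt i (r * s) ∈ P.B
    rw [ex_mul]; exact P.B.mul_mem hr hs
  add_mem' := fun {r s} hr hs => by
    change ex P.vt i (r + s) ∈ P.B
    rw [ex_add]; exact P.B.add_mem hr hs
  algebraMap_mem' := fun c => by
    change ex P.vt i _ ∈ P.B
    rw [Algebra.algebraMap_eq_smul_one, ex_smul, ex_one]
    exact P.B.smul_mem (P.e_mem i) c

theorem mem_Rz {i : ι} {r : Matrix {p // P.vt p = i} {p // P.vt p = i} F} :
    r ∈ Rz P i ↔ ex P.vt i r ∈ P.B := Iff.rfl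

theorem ex_mem {i : ι} {r : Matrix {p // P.vt p = i} {p // P.vt p = i} F} (h : r ∈ Rz P i) :
    ex P.vt i r ∈ P.H i i := ⟨h, fun _ _ e => ex_ne P.vt e⟩

theorem re_mem (i : ι) {b : Matrix Pt Pt F} (hb : b ∈ P.B) :
    ga F P.vt i * b * al F P.vt i ∈ Rz P i := by
  have h := P.blk_mem hb i i
  have e : ga F P.vt i * b * al F P.vt i = ga F P.vt i * P.blk i i b * al F P.vt i := by
    ext q p
    rw [ga_mul_al, ga_mul_al, P.blk_pos b p.2 q.2]
  rw [mem_Rz, e, ex_re P.vt i h.2]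
  exact h.1

theorem nil_sub {A : Type} [Ring A] [Algebra k A] {R : Subalgebra k A} {a : R}
    (h : IsNilpotent a.1) : IsNilpotent a := by
  obtain ⟨m, hm⟩ := h
  exact ⟨m, Subtype.ext (by rw [SubmonoidClass.coe_pow, hm]; rfl)⟩

theorem pi_Rz (h : PILoc P) (i : ι) : PI k (Rz P i) := by
  refine ⟨fun a => ?_, fun a b => ?_⟩
  · obtain ⟨r, c, hn⟩ := h.pi i _ (ex_mem P a.2)
    refine ⟨r, c, nil_sub (nil_of_ex P.vt i ?_)⟩
    change IsNilpotent (ex P.vt i (a.1 ^ _ - algebraMap k _ c))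
    rwa [ex_sub, ex_pow _ _ _ (expow_ne r), Algebra.algebraMap_eq_smul_one, ex_smul, ex_one]
  · refine nil_sub (nil_of_ex P.vt i ?_)
    change IsNilpotent (ex P.vt i (a.1 * b.1 - b.1 * a.1))
    rw [ex_sub, ex_mul, ex_mul]
    exact h.comm i _ (ex_mem P a.2) _ (ex_mem P b.2)

theorem finrank_Rz (i : ι) : finrank k (Rz P i) = finrank k (P.H i i) := by
  let φ : Rz P i →ₗ[k] P.H i i :=
    { toFun := fun r => ⟨ex P.vt i r.1, ex_mem P r.2⟩
      map_add' := fun r s => Subtype.ext (ex_add _ _ _ _)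
      map_smul' := fun c r => Subtype.ext (ex_smul _ _ _ _) }
  refine (LinearEquiv.ofBijective φ ⟨fun r s e => Subtype.ext ?_, fun b => ?_⟩).finrank_eq
  · have : ex P.vt i r.1 = ex P.vt i s.1 := congrArg Subtype.val e
    rw [← re_ex P.vt i r.1, this, re_ex]
  · exact ⟨⟨_, re_mem P i b.2.1⟩, Subtype.ext (ex_re P.vt i b.2.2)⟩

theorem div_of {z : ι} (h : VA (Rz P z)) : Div P z := by
  intro b hb hne
  obtain ⟨r, hr, e⟩ := h.div _ (re_mem P z hb.1) fun e => hne (by
    rw [← ex_re P.vt z hb.2, e]; simp [ex])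
  refine ⟨_, ex_mem P hr, ?_⟩
  rw [← ex_one, ← e, ex_mul, ex_re P.vt z hb.2]

theorem al_vec {z : ι} {x : Pt → F} (hx : ∀ p, P.vt p ≠ z → x p = 0) :
    (al F P.vt z).mulVec (fun p => x p.1) = x := by
  ext q
  by_cases hq : P.vt q = z
  · exact al_mul_pos P.vt z (Matrix.of fun p (_ : Unit) => x p.1) ⟨q, hq⟩ ()
  · rw [hx q hq]
    exact al_mul_neg P.vt z (Matrix.of fun p (_ : Unit) => x p.1) hq ()

theorem vec_ga {z : ι} {x : Pt → F} (hx : ∀ p, P.vt p ≠ z → x p = 0) :
    Matrix.vecMul (fun p => x p.1) (ga F P.vt z) = x := by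
  ext q
  by_cases hq : P.vt q = z
  · exact mul_ga_pos P.vt z (Matrix.of fun (_ : Unit) p => x p.1) () ⟨q, hq⟩
  · rw [hx q hq]
    exact mul_ga_neg P.vt z (Matrix.of fun (_ : Unit) p => x p.1) () hq

theorem col_of {z : ι} (h : VA (Rz P z)) : ColSimple P z := by
  intro W hW hs
  rcases h.col (W.comap (al F P.vt z).mulVecLin) (fun r hr y hy => by
    have := hs _ (ex_mem P hr) _ hy
    rw [Matrix.mulVecLin_apply, Matrix.mulVec_mulVec, ex, Matrix.mul_assoc, ga_al,
      Matrix.mul_one, ← Matrix.mulVec_mulVec] at this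
    exact this) with h0 | h1
  · left
    rw [eq_bot_iff]
    intro x hx
    have : (fun p => x p.1) ∈ W.comap (al F P.vt z).mulVecLin := by
      rw [Submodule.mem_comap, Matrix.mulVecLin_apply, al_vec P (hW x hx)]; exact hx
    rw [h0, Submodule.mem_bot] at this
    rw [← al_vec P (hW x hx), this, Matrix.mulVec_zero]
    exact Submodule.zero_mem _
  · right
    intro x hx
    have : (fun p => x p.1) ∈ W.comap (al F P.vt z).mulVecLin := by rw [h1]; trivial
    rwa [Submodule.mem_comap, Matrix.mulVecLin_apply, al_vec P hx] at this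

theorem row_of {z : ι} (h : VA (Rz P z)) : RowSimple P z := by
  intro W hW hs
  rcases h.row (W.comap (ga F P.vt z).vecMulLinear) (fun r hr y hy => by
    have := hs _ (ex_mem P hr) _ hy
    rw [Matrix.vecMulLinear_apply, Matrix.vecMul_vecMul, ex, ← Matrix.mul_assoc,
      ← Matrix.mul_assoc, ga_al, Matrix.one_mul, ← Matrix.vecMul_vecMul] at this
    exact this) with h0 | h1
  · left
    rw [eq_bot_iff]
    intro x hx
    have : (fun p => x p.1) ∈ W.comap (ga F P.vt z).vecMulLinear := by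
      rw [Submodule.mem_comap, Matrix.vecMulLinear_apply, vec_ga P (hW x hx)]; exact hx
    rw [h0, Submodule.mem_bot] at this
    rw [← vec_ga P (hW x hx), this, Matrix.zero_vecMul]
    exact Submodule.zero_mem _
  · right
    intro x hx
    have : (fun p => x p.1) ∈ W.comap (ga F P.vt z).vecMulLinear := by rw [h1]; trivial
    rwa [Submodule.mem_comap, Matrix.vecMulLinear_apply, vec_ga P hx] at this

theorem le3_of {i : ι} (h : Fintype.card {p // P.vt p = i} ≤ 3) : Le3 P.vt i := by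
  intro p q r s hp hq hr hs
  by_contra hc
  simp only [not_or] at hc
  obtain ⟨h1, h2, h3, h4, h5, h6⟩ := hc
  have := Finset.card_le_univ
    ({⟨p, hp⟩, ⟨q, hq⟩, ⟨r, hr⟩, ⟨s, hs⟩} : Finset {p // P.vt p = i})
  rw [Finset.card_insert_of_notMem (by simp [h1, h2, h3]),
    Finset.card_insert_of_notMem (by simp [h4, h5]), Finset.card_pair (by simp [h6])] at this
  omega

theorem flag_of (hb : PILoc P) (hti : ∀ i, {p // P.vt p = i} → ℕ)
    (h : ∀ i, VA (Rz P i) ∨ NV (Rz P i) (hti i)) :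
    Flag P {i | VA (Rz P i)} fun p => hti (P.vt p) ⟨p, rfl⟩ := by
  have hv : ∀ i, i ∉ {i | VA (Rz P i)} → NV (Rz P i) (hti i) := fun i hi => (h i).resolve_left hi
  have he : ∀ {p i} (hp : P.vt p = i), hti (P.vt p) ⟨p, rfl⟩ = hti i ⟨p, hp⟩ := by
    intro p i hp
    subst hp
    rfl
  refine ⟨fun p q e hp e' => ?_, fun i hi => le3_of P (hv i hi).three,
    fun b hB q p e hp hne => ?_, fun b hB p q e hp => ?_, fun p hp c => ?_,
    fun p q e hp hlt => ?_, hb.basic, fun z hz => div_of P hz, fun z hz => col_of P hz,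
    fun z hz => row_of P hz, fun z hz => ?_⟩
  · rw [he e.symm] at e'
    exact congrArg Subtype.val ((hv _ hp).inj e')
  · rw [he e]
    exact (hv _ hp).tri _ (re_mem P _ hB) ⟨q, e⟩ ⟨p, rfl⟩ (by rwa [ga_mul_al])
  · have := (hv _ hp).diag _ (re_mem P _ hB) ⟨p, rfl⟩ ⟨q, e.symm⟩
    rwa [ga_mul_al, ga_mul_al] at this
  · obtain ⟨r, hr, e⟩ := (hv _ hp).onto ⟨p, rfl⟩ c
    exact ⟨_, hr, (ex_pos P.vt _ r ⟨p, rfl⟩ ⟨p, rfl⟩).trans e⟩
  · rw [he e.symm] at hlt
    obtain ⟨r, hr, e1, e2⟩ := (hv _ hp).step ⟨p, rfl⟩ ⟨q, e.symm⟩ hlt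
    exact ⟨_, hr, by rwa [ex_pos P.vt _ r ⟨q, e.symm⟩ ⟨p, rfl⟩],
      (ex_pos P.vt _ r ⟨p, rfl⟩ ⟨p, rfl⟩).trans e2⟩
  · obtain ⟨y, h1, h2⟩ := VA.num hz
    rw [Nat.card_eq_fintype_card, ← finrank_Rz]
    exact ⟨y, h1, h2⟩

end prob

end LocA

open LocA in
/-- Flags exist after a block diagonal conjugation. -/
theorem loc : SConj → SHT → SLoc := by
  intro hC hT k F _ _ _ _ _ Pt ι _ _ _ P hP hH
  classical
  have h1 := fun i => one_vertex (pi_Rz P hP i)
    (hT k F Pt _ P.B (Rz P i) (al F P.vt i) (ga F P.vt i) (ga_al P.vt i)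
      (fun b hb => re_mem P i hb) hH)
  choose g g' ht h2 h3 h4 using h1
  obtain ⟨P', hP'⟩ := (hC k F Pt ι P).1 (bd P.vt g) (bd P.vt g') (bd_mul P.vt h2) (bd_mul P.vt h3)
    (fun _ _ => bd_ne P.vt) fun _ _ => bd_ne P.vt
  have hL := ((hC k F Pt ι P).2 P' _ _ hP').2.1 hP
  obtain ⟨vt', pk', B', idem', peak'⟩ := P'
  obtain rfl : vt' = P.vt := hP'.vt
  refine ⟨_, _, _, _, _, hP', flag_of _ hL ht fun i => h4 i _ fun r => ?_⟩
  rw [mem_Rz, hP'.mem, mem_Rz]
  change bd P.vt g' * ex P.vt i r * bd P.vt g ∈ P.B ↔ _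
  rw [bd_ex]

end Pool.Agent.MP_bd94e8_al.H89
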