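import Pool.Agent.MP_bd94e8_al.H89.Spec

/-!
Local purely inseparable algebras and their simple representations.
-/

set_option autoImplicit false
set_option linter.unusedSectionVars false
set_option linter.unusedVariables false
set_option linter.unusedSimpArgs false

namespace Pool.Agent.MP_bd94e8_al.H89

open Module Function

namespace LocA

/-- Local purely inseparable algebras. -/
structure PI (k A : Type) [Field k] [Ring A] [Algebra k A] : Prop where
  pi : ∀ a : A, ∃ (r : ℕ) (c : k), IsNilpotent (a ^ (ringExpChar k ^ r) - algebraMap k A c)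
  comm : ∀ a b : A, IsNilpotent (a * b - b * a)

section alg
variable {k A : Type} [Field k] [Ring A] [Algebra k A]

theorem expow_ne (r : ℕ) : ringExpChar k ^ r ≠ 0 :=
  pow_ne_zero _ (expChar_pos k (ringExpChar k)).ne'

theorem PI.nil_or_unit (h : PI k A) (a : A) : IsNilpotent a ∨ IsUnit a := by
  obtain ⟨r, c, hn⟩ := h.pi a
  by_cases hc : c = 0
  · left
    rw [hc, map_zero, sub_zero] at hn
    exact IsNilpotent.of_pow hn
  · right
    have hu : IsUnit (algebraMap k A c) := (IsUnit.mk0 c hc).map _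
    have := hn.isUnit_add_right_of_commute hu (Algebra.commutes c _).symm
    rw [sub_add_cancel] at this
    exact (isUnit_pow_iff (expow_ne r)).1 this

theorem nil_left_inv {a y : A} (ha : IsNilpotent a) (hy : y * a = 1) : (1 : A) = 0 := by
  obtain ⟨m, hm⟩ := ha
  induction m with
  | zero => simpa using hm
  | succ m ih =>
    apply ih
    calc a ^ m = y * a * a ^ m := by rw [hy, one_mul]
      _ = y * a ^ (m + 1) := by rw [pow_succ', mul_assoc]
      _ = 0 := by rw [hm, mul_zero]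

theorem nil_right_inv {a y : A} (ha : IsNilpotent a) (hy : a * y = 1) : (1 : A) = 0 := by
  obtain ⟨m, hm⟩ := ha
  induction m with
  | zero => simpa using hm
  | succ m ih =>
    apply ih
    calc a ^ m = a ^ m * (a * y) := by rw [hy, mul_one]
      _ = a ^ (m + 1) * y := by rw [pow_succ, mul_assoc]
      _ = 0 := by rw [hm, zero_mul]

theorem nil_of_triv (h : (1 : A) = 0) (a : A) : IsNilpotent a := ⟨0, by rw [pow_zero, h]⟩

theorem PI.mul_left (h : PI k A) {a : A} (ha : IsNilpotent a) (y : A) : IsNilpotent (y * a) := by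
  rcases h.nil_or_unit (y * a) with hn | hu
  · exact hn
  · obtain ⟨u, hu⟩ := hu
    exact nil_of_triv (nil_left_inv ha (y := ↑u⁻¹ * y) (by rw [mul_assoc, ← hu, Units.inv_mul])) _

theorem PI.mul_right (h : PI k A) {a : A} (ha : IsNilpotent a) (y : A) : IsNilpotent (a * y) := by
  rcases h.nil_or_unit (a * y) with hn | hu
  · exact hn
  · obtain ⟨u, hu⟩ := hu
    exact nil_of_triv (nil_right_inv ha (y := y * ↑u⁻¹) (by rw [← mul_assoc, ← hu, Units.mul_inv])) _

theorem PI.add (h : PI k A) {a b : A} (ha : IsNilpotent a) (hb : IsNilpotent b) :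
    IsNilpotent (a + b) := by
  rcases h.nil_or_unit (a + b) with hn | hu
  · exact hn
  · obtain ⟨u, hu⟩ := hu
    have h1 : IsUnit (1 - ↑u⁻¹ * a) := (h.mul_left ha _).isUnit_one_sub
    have h2 : 1 - ↑u⁻¹ * a = ↑u⁻¹ * b := by
      rw [sub_eq_iff_eq_add', ← mul_add, ← hu, Units.inv_mul]
    rw [h2] at h1
    obtain ⟨v, hv⟩ := h1
    exact nil_of_triv (nil_left_inv hb (y := (↑v⁻¹ : A) * (↑u⁻¹ : A))
      (by rw [mul_assoc, ← hv, Units.inv_mul])) _

/-- The nilpotent elements. -/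
def PI.J (h : PI k A) : Submodule k A where
  carrier := {a | IsNilpotent a}
  add_mem' := fun ha hb => h.add ha hb
  zero_mem' := IsNilpotent.zero
  smul_mem' := fun c a ha => by
    rw [Algebra.smul_def]
    exact h.mul_left ha _

/-- The dimension of the residue field. -/
noncomputable def PI.fA (h : PI k A) : ℕ := finrank k (A ⧸ h.J)

theorem PI.range_le [Module.Finite k A] (h : PI k A) {X : Type} [AddCommGroup X] [Module k X]
    (Φ : A →ₗ[k] X) (hΦ : ∀ a, IsNilpotent a → Φ a = 0) :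
    finrank k (LinearMap.range Φ) ≤ h.fA := by
  have hle : h.J ≤ LinearMap.ker Φ := fun a ha => hΦ a ha
  rw [← Submodule.range_liftQ h.J Φ hle]
  exact LinearMap.finrank_range_le _

theorem PI.range_eq (h : PI k A) {X : Type} [AddCommGroup X] [Module k X]
    (Φ : A →ₗ[k] X) (hΦ : ∀ a, IsNilpotent a ↔ Φ a = 0) :
    finrank k (LinearMap.range Φ) = h.fA := by
  have he : LinearMap.ker Φ = h.J := by
    ext a; exact (hΦ a).symm
  rw [← Φ.quotKerEquivRange.finrank_eq, he, PI.fA]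

theorem PI.mem_jac (h : PI k A) {a : A} (ha : IsNilpotent a) :
    a ∈ Ideal.jacobson (⊥ : Ideal A) := by
  rw [Ideal.mem_jacobson_iff]
  intro y
  obtain ⟨u, hu⟩ := (h.mul_left ha y).isUnit_add_one
  refine ⟨↑u⁻¹, ?_⟩
  rw [Ideal.mem_bot, mul_assoc, sub_eq_zero]
  calc (↑u⁻¹ : A) * (y * a) + ↑u⁻¹ = ↑u⁻¹ * (y * a + 1) := by rw [mul_add, mul_one]
    _ = 1 := by rw [← hu, Units.inv_mul]

theorem PI.nil_of_jac [Module.Finite k A] {a : A} (ha : a ∈ Ideal.jacobson (⊥ : Ideal A)) :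
    IsNilpotent a := by
  have : IsArtinianRing A := IsArtinianRing.of_finite k A
  obtain ⟨N, hN⟩ := IsArtinianRing.isNilpotent_jacobson_bot (R := A)
  refine ⟨N, ?_⟩
  have : a ^ N ∈ Ideal.jacobson (⊥ : Ideal A) ^ N := Submodule.pow_mem_pow _ ha N
  rw [hN] at this
  exact this

end alg

section rep
variable {k F A : Type} [Field k] [Field F] [Algebra k F] [Ring A] [Algebra k A]
  {V : Type} [AddCommGroup V] [Module F V] [Module k V] [IsScalarTower k F V]

/-- Invariant subspaces. -/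
def Inv (ρ : A →ₐ[k] End F V) (W : Submodule F V) : Prop := ∀ a, ∀ x ∈ W, ρ a x ∈ W

/-- Simple representations. -/
def Simp (ρ : A →ₐ[k] End F V) : Prop := Nontrivial V ∧ ∀ W, Inv ρ W → W = ⊥ ∨ W = ⊤

theorem PI.act_zero [Module.Finite k A] (h : PI k A) {ρ : A →ₐ[k] End F V} (hρ : Simp ρ) {a : A}
    (ha : IsNilpotent a) : ρ a = 0 := by
  have := hρ.1
  let K : Submodule F V :=
    { carrier := {x | ∀ b, IsNilpotent b → ρ b x = 0}
      add_mem' := fun {x y} hx hy b hb => by rw [map_add, hx b hb, hy b hb, add_zero]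
      zero_mem' := fun b _ => map_zero _
      smul_mem' := fun c x hx b hb => by rw [map_smul, hx b hb, smul_zero] }
  have hK : Inv ρ K := fun b x hx c hc => by
    rw [← Module.End.mul_apply, ← map_mul]
    exact hx _ (h.mul_right hc b)
  rcases hρ.2 K hK with h0 | h1
  · exfalso
    have : IsArtinianRing A := IsArtinianRing.of_finite k A
    obtain ⟨N, hN⟩ := IsArtinianRing.isNilpotent_jacobson_bot (R := A)
    have key : ∀ (s : ℕ) (x : V), (∀ b ∈ Ideal.jacobson (⊥ : Ideal A) ^ s, ρ b x = 0) → x = 0 := by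
      intro s
      induction s with
      | zero =>
        intro x hx
        have := hx 1 (by rw [Submodule.pow_zero, Ideal.one_eq_top]; trivial)
        simpa using this
      | succ s ih =>
        intro x hx
        have : x ∈ K := fun b hb => ih _ fun c hc => by
          rw [← Module.End.mul_apply, ← map_mul]
          refine hx _ ?_
          rw [Submodule.pow_succ]
          exact Ideal.mul_mem_mul hc (h.mem_jac hb)
        rw [h0] at this
        exact this
    obtain ⟨x, hx⟩ := exists_ne (0 : V)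
    refine hx (key N x fun b hb => ?_)
    rw [hN] at hb
    have : b = 0 := hb
    rw [this, map_zero, LinearMap.zero_apply]
  · ext x
    have : x ∈ K := by rw [h1]; trivial
    exact this a ha

theorem PI.act_zero_iff [Module.Finite k A] (h : PI k A) {ρ : A →ₐ[k] End F V} (hρ : Simp ρ)
    (a : A) : IsNilpotent a ↔ ρ a = 0 := by
  have := hρ.1
  refine ⟨h.act_zero hρ, fun h0 => ?_⟩
  rcases h.nil_or_unit a with hn | hu
  · exact hn
  · exact absurd h0 (hu.map ρ).ne_zero

theorem PI.num [Module.Finite k A] [FiniteDimensional k F] [FiniteDimensional F V] (h : PI k A)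
    {ρ : A →ₐ[k] End F V} (hρ : Simp ρ) :
    ∃ y : ℕ, finrank F V * finrank k F = y * h.fA := by
  have := hρ.1
  have hD : ∀ d : ρ.range, IsUnit d ∨ d = 0 := by
    rintro ⟨_, a, rfl⟩
    rcases h.nil_or_unit a with hn | hu
    · right
      exact Subtype.ext (h.act_zero hρ hn)
    · left
      exact hu.map ρ.rangeRestrict
  let dv : DivisionRing ρ.range := DivisionRing.ofIsUnitOrEqZero hD
  have : Module.Free ρ.range V := Module.Free.of_divisionRing _ _
  refine ⟨finrank ρ.range V, ?_⟩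
  have h1 := Module.finrank_mul_finrank k F V
  have h2 := Module.finrank_mul_finrank k ρ.range V
  have h3 : finrank k ρ.range = h.fA := h.range_eq ρ.toLinearMap (h.act_zero_iff hρ)
  rw [← h3, mul_comm, h1, ← h2, mul_comm]

theorem PI.sigma_iff (h : PI k A) (σ : A →ₐ[k] F) (a : A) : IsNilpotent a ↔ σ a = 0 := by
  refine ⟨fun hn => (hn.map σ).eq_zero, fun h0 => ?_⟩
  rcases h.nil_or_unit a with hn | hu
  · exact hn
  · exact absurd h0 (hu.map σ).ne_zero

theorem PI.sigma_surj [FiniteDimensional k F] (h : PI k A) (σ : A →ₐ[k] F)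
    (hf : h.fA = finrank k F) : Surjective σ := by
  have h3 := h.range_eq σ.toLinearMap (h.sigma_iff σ)
  rw [hf] at h3
  have := Submodule.eq_top_of_finrank_eq h3
  exact LinearMap.range_eq_top.1 this

theorem exists_sigma (ρ : A →ₐ[k] End F V) (h1 : finrank F V = 1) : Nonempty (A →ₐ[k] F) := by
  have : Nontrivial V := Module.nontrivial_of_finrank_pos (R := F) (by omega)
  choose s hs hu using fun a => LinearMap.existsUnique_eq_smul_id_of_finrank_eq_one h1 (ρ a)
  refine ⟨AlgHom.ofLinearMap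
    { toFun := s
      map_add' := fun a b => (hu _ _ ?_).symm
      map_smul' := fun c a => (hu _ _ ?_).symm } (hu _ _ ?_).symm fun a b => (hu _ _ ?_).symm⟩
  · simp only
    rw [map_add, add_smul, ← hs a, ← hs b]
  · simp only [RingHom.id_apply]
    rw [map_smul, smul_assoc, ← hs a]
  · simp only
    rw [map_one, one_smul]; rfl
  · simp only [LinearMap.coe_mk, AddHom.coe_mk]
    rw [map_mul, mul_smul, ← hs b]
    conv_lhs => rw [hs a]
    ext x
    simp

theorem PI.act_eq [Module.Finite k A] (h : PI k A) {ρ : A →ₐ[k] End F V} (hρ : Simp ρ)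
    (σ : A →ₐ[k] F) (a : A) (x : V) : ρ a x = σ a • x := by
  have := hρ.1
  obtain ⟨r, c, hn⟩ := h.pi a
  have h1 := h.act_zero hρ hn
  have h2 := (h.sigma_iff σ _).1 hn
  rw [map_sub, map_pow, sub_eq_zero, AlgHom.commutes] at h1 h2
  have : ExpChar (End F V) (ringExpChar k) :=
    expChar_of_injective_algebraMap (algebraMap k (End F V)).injective _
  set N : End F V := ρ a - algebraMap F (End F V) (σ a) with hN
  have h3 : N ^ (ringExpChar k ^ r) = 0 := by
    rw [hN, sub_pow_expChar_pow_of_commute _ _ (Algebra.commutes _ _).symm, h1, ← map_pow, h2,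
      ← IsScalarTower.algebraMap_apply, sub_self]
  have hK : Inv ρ (LinearMap.ker N) := fun b y hy => by
    have hc : ρ a * ρ b = ρ b * ρ a := by
      rw [← map_mul, ← map_mul, ← sub_eq_zero, ← map_sub]
      exact h.act_zero hρ (h.comm a b)
    have hc' : N * ρ b = ρ b * N := by
      rw [hN, sub_mul, mul_sub, hc, Algebra.commutes]
    rw [LinearMap.mem_ker] at hy ⊢
    rw [← Module.End.mul_apply, hc', Module.End.mul_apply, hy, map_zero]
  rcases hρ.2 _ hK with h0 | h4
  · exfalso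
    have hi : Injective N := LinearMap.ker_eq_bot.1 h0
    have hi' : Injective (N ^ (ringExpChar k ^ r)) := by
      rw [Module.End.coe_pow]; exact hi.iterate _
    obtain ⟨y, hy⟩ := exists_ne (0 : V)
    exact hy (hi' (by rw [h3]; simp))
  · have : x ∈ LinearMap.ker N := by rw [h4]; trivial
    rw [LinearMap.mem_ker, hN, LinearMap.sub_apply, sub_eq_zero] at this
    rw [this, Module.algebraMap_end_apply]

theorem subq [FiniteDimensional F V] (U' U : Submodule F V) :
    ∃ (x : ℕ) (α : (Fin x → F) →ₗ[F] V) (γ : V →ₗ[F] (Fin x → F)),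
      (∀ y, γ (α y) = y) ∧ (∀ y, α y ∈ U) ∧ ∀ w ∈ U, (γ w = 0 ↔ w ∈ U') := by
  let Q0 : Submodule F (V ⧸ U') := U.map U'.mkQ
  let e : Q0 ≃ₗ[F] (Fin (finrank F Q0) → F) := (Module.finBasis F Q0).equivFun
  obtain ⟨r, hr⟩ := Q0.subtype.exists_leftInverse_of_injective Q0.ker_subtype
  let s : U →ₗ[F] Q0 := (U'.mkQ ∘ₗ U.subtype).codRestrict Q0 fun u => ⟨u.1, u.2, rfl⟩
  have hs : LinearMap.range s = ⊤ := by
    rw [LinearMap.range_eq_top]
    rintro ⟨_, u, hu, rfl⟩
    exact ⟨⟨u, hu⟩, rfl⟩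
  obtain ⟨t, ht⟩ := s.exists_rightInverse_of_surjective hs
  have hw : ∀ w : U, r (U'.mkQ w.1) = s w := fun w => LinearMap.congr_fun hr (s w)
  refine ⟨_, U.subtype ∘ₗ t ∘ₗ e.symm.toLinearMap, e.toLinearMap ∘ₗ r ∘ₗ U'.mkQ, fun y => ?_,
    fun y => (t (e.symm y)).2, fun w hw' => ?_⟩
  · change e (r (U'.mkQ (t (e.symm y)).1)) = y
    rw [hw]
    have : s (t (e.symm y)) = e.symm y := LinearMap.congr_fun ht _
    rw [this, LinearEquiv.apply_symm_apply]
  · change e (r (U'.mkQ (⟨w, hw'⟩ : U).1)) = 0 ↔ _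
    rw [hw, map_eq_zero_iff e e.injective, Subtype.ext_iff]
    exact Submodule.Quotient.mk_eq_zero U'

/-- A simple subquotient. -/
theorem subrep [FiniteDimensional F V] (ρ : A →ₐ[k] End F V) {U' U : Submodule F V}
    (hU' : Inv ρ U') (hU : Inv ρ U) (hlt : U' < U)
    (hm : ∀ W, Inv ρ W → U' ≤ W → W ≤ U → W = U' ∨ W = U) :
    ∃ (x : ℕ) (α : (Fin x → F) →ₗ[F] V) (γ : V →ₗ[F] (Fin x → F))
      (ρ' : A →ₐ[k] End F (Fin x → F)), (∀ y, γ (α y) = y) ∧ (∀ y, α y ∈ U) ∧
      (∀ w ∈ U, (γ w = 0 ↔ w ∈ U')) ∧ (∀ a, ∀ w ∈ U, ρ' a (γ w) = γ (ρ a w)) ∧ Simp ρ' := by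
  obtain ⟨x, α, γ, h1, h2, h3⟩ := subq U' U
  have key : ∀ a, ∀ w ∈ U, γ (ρ a (α (γ w))) = γ (ρ a w) := by
    intro a w hw
    have h4 : w - α (γ w) ∈ U' :=
      (h3 _ (U.sub_mem hw (h2 _))).1 (by rw [map_sub, h1, sub_self])
    have h5 := (h3 _ (hlt.le (hU' a _ h4))).2 (hU' a _ h4)
    rw [map_sub, map_sub, sub_eq_zero] at h5
    exact h5.symm
  let ρ' : A →ₐ[k] End F (Fin x → F) := AlgHom.ofLinearMap
    { toFun := fun a => γ ∘ₗ ρ a ∘ₗ α
      map_add' := fun a b => by rw [map_add, LinearMap.add_comp, LinearMap.comp_add]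
      map_smul' := fun c a => by
        refine LinearMap.ext fun y => ?_
        simp only [map_smul, LinearMap.comp_apply, LinearMap.smul_apply, RingHom.id_apply]
        rw [← algebraMap_smul F c, map_smul, algebraMap_smul] }
    (LinearMap.ext fun y => by simpa using h1 y)
    fun a b => LinearMap.ext fun y => by
      simp only [LinearMap.coe_mk, AddHom.coe_mk, map_mul, LinearMap.comp_apply,
        Module.End.mul_apply]
      exact (key a _ (hU b _ (h2 y))).symm
  have hρ' : ∀ a y, ρ' a y = γ (ρ a (α y)) := fun a y => rfl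
  refine ⟨x, α, γ, ρ', h1, h2, h3, fun a w hw => key a w hw, ?_, fun W hW => ?_⟩
  · obtain ⟨w, hw, hw'⟩ := SetLike.exists_of_lt hlt
    exact ⟨γ w, 0, fun h => hw' ((h3 w hw).1 h)⟩
  · have hI : Inv ρ (U ⊓ W.comap γ) := fun a w hw => ⟨hU a w hw.1, by
      have := hW a _ hw.2
      rw [hρ', key a w hw.1] at this
      exact this⟩
    rcases hm _ hI (fun w hw => ⟨hlt.le hw, by
      change γ w ∈ W
      rw [(h3 w (hlt.le hw)).2 hw]; exact W.zero_mem⟩) inf_le_left with h | h
    · left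
      rw [eq_bot_iff]
      intro y hy
      have : α y ∈ U' := by
        rw [← h]; exact ⟨h2 y, by change γ (α y) ∈ W; rw [h1]; exact hy⟩
      have := (h3 _ (h2 y)).2 this
      rw [h1] at this
      exact this
    · right
      rw [eq_top_iff]
      intro y _
      have : α y ∈ U ⊓ W.comap γ := by rw [h]; exact h2 y
      have h5 : γ (α y) ∈ W := this.2
      rwa [h1] at h5

theorem exists_max [FiniteDimensional F V] (ρ : A →ₐ[k] End F V) {W0 U : Submodule F V}
    (h0 : Inv ρ W0) (hlt : W0 < U) : ∃ U', Inv ρ U' ∧ W0 ≤ U' ∧ U' < U ∧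
      ∀ W, Inv ρ W → U' ≤ W → W ≤ U → W = U' ∨ W = U := by
  obtain ⟨U', ⟨h1, h2, h3⟩, hm⟩ := set_has_maximal_iff_noetherian.2
    (inferInstance : IsNoetherian F V) {W | Inv ρ W ∧ W0 ≤ W ∧ W < U} ⟨W0, h0, le_rfl, hlt⟩
  refine ⟨U', h1, h2, h3, fun W hW h4 h5 => ?_⟩
  by_cases e : W = U
  · exact Or.inr e
  · left
    by_contra e'
    exact hm W ⟨hW, h2.trans h4, lt_of_le_of_ne h5 e⟩ (lt_of_le_of_ne h4 (Ne.symm e'))

theorem exists_min [FiniteDimensional F V] (ρ : A →ₐ[k] End F V) {U : Submodule F V}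
    (h0 : Inv ρ U) (hne : U ≠ ⊥) : ∃ U1, Inv ρ U1 ∧ U1 ≤ U ∧ ⊥ < U1 ∧
      ∀ W, Inv ρ W → ⊥ ≤ W → W ≤ U1 → W = ⊥ ∨ W = U1 := by
  obtain ⟨U1, ⟨h1, h2, h3⟩, hm⟩ := set_has_minimal_iff_artinian.2
    (inferInstance : IsArtinian F V) {W | Inv ρ W ∧ W ≤ U ∧ W ≠ ⊥} ⟨U, h0, le_rfl, hne⟩
  refine ⟨U1, h1, h2, bot_lt_iff_ne_bot.2 h3, fun W hW _ h5 => ?_⟩
  by_cases e : W = ⊥
  · exact Or.inl e
  · right
    by_contra e'
    exact hm W ⟨hW, h5.trans h2, e⟩ (lt_of_le_of_ne h5 e')

theorem inv_bot (ρ : A →ₐ[k] End F V) : Inv ρ ⊥ := fun a x hx => by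
  rw [Submodule.mem_bot] at hx ⊢
  rw [hx, map_zero]

theorem inv_top (ρ : A →ₐ[k] End F V) : Inv ρ ⊤ := fun _ _ _ => trivial

/-- Every nonzero invariant subspace has a proper subspace that contains the images. -/
theorem PI.drop [Module.Finite k A] [FiniteDimensional F V] (h : PI k A) (ρ : A →ₐ[k] End F V)
    (σ : A →ₐ[k] F) {U : Submodule F V} (hU : Inv ρ U) (hne : U ≠ ⊥) :
    ∃ U' : Submodule F V, U' < U ∧ ∀ a, ∀ w ∈ U, ρ a w - σ a • w ∈ U' := by
  obtain ⟨U', h1, -, h3, h4⟩ := exists_max ρ (inv_bot ρ) (bot_lt_iff_ne_bot.2 hne)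
  obtain ⟨x, α, γ, ρ', -, -, h7, h8, h9⟩ := subrep ρ h1 hU h3 h4
  refine ⟨U', h3, fun a w hw => (h7 _ (U.sub_mem (hU a w hw) (U.smul_mem _ hw))).1 ?_⟩
  rw [map_sub, map_smul, ← h8 a w hw, h.act_eq h9 σ, sub_self]

theorem PI.tri_aux [Module.Finite k A] [FiniteDimensional F V] (h : PI k A) (ρ : A →ₐ[k] End F V)
    (σ : A →ₐ[k] F) : ∀ (n : ℕ) (U : Submodule F V), Inv ρ U → finrank F U = n →
    ∃ (m : ℕ) (v : Fin m → V), LinearIndependent F v ∧ Submodule.span F (Set.range v) = U ∧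
      ∀ a i, ρ a (v i) - σ a • v i ∈ Submodule.span F (v '' {j | i < j}) := by
  intro n
  induction n using Nat.strong_induction_on with
  | _ n ih =>
    intro U hU hn
    by_cases hne : U = ⊥
    · refine ⟨0, Fin.elim0, linearIndependent_empty_type, ?_, fun a i => i.elim0⟩
      rw [hne, Set.range_eq_empty, Submodule.span_empty]
    obtain ⟨U', h1, h2⟩ := h.drop ρ σ hU hne
    obtain ⟨x, hx, hx'⟩ := SetLike.exists_of_lt h1
    obtain ⟨φ, hφ, hφ'⟩ := Submodule.exists_dual_map_eq_bot_of_notMem hx' inferInstance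
    have hk : ∀ w ∈ U', φ w = 0 := fun w hw => by
      have : φ w ∈ U'.map φ := ⟨w, hw, rfl⟩
      rwa [hφ'] at this
    let W : Submodule F V := U ⊓ LinearMap.ker φ
    have hW1 : ∀ a, ∀ w ∈ U, ρ a w - σ a • w ∈ W := fun a w hw =>
      ⟨h1.le (h2 a w hw), hk _ (h2 a w hw)⟩
    have hW : Inv ρ W := fun a w hw => by
      have := W.add_mem (hW1 a w hw.1) (W.smul_mem (σ a) hw)
      rwa [sub_add_cancel] at this
    have hxW : x ∉ W := fun h => hφ h.2
    have hlt : W < U := lt_of_le_of_ne inf_le_left fun e => hxW (e ▸ hx)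
    obtain ⟨m, v, h3, h4, h5⟩ := ih _ (hn ▸ Submodule.finrank_lt_finrank_of_lt hlt) W hW rfl
    refine ⟨m + 1, Fin.cons x v, linearIndependent_finCons.2 ⟨h3, h4 ▸ hxW⟩, ?_, fun a i => ?_⟩
    · rw [Fin.range_cons, Submodule.span_insert, h4]
      apply le_antisymm
      · exact sup_le ((Submodule.span_singleton_le_iff_mem _ _).2 hx) inf_le_left
      · intro w hw
        have : w - (φ w / φ x) • x ∈ W := ⟨U.sub_mem hw (U.smul_mem _ hx), by
          rw [SetLike.mem_coe, LinearMap.mem_ker, map_sub, map_smul, smul_eq_mul,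
            div_mul_cancel₀ _ hφ, sub_self]⟩
        have := Submodule.add_mem_sup
          (Submodule.smul_mem _ (φ w / φ x) (Submodule.mem_span_singleton_self x)) this
        rwa [add_sub_cancel] at this
    · refine Fin.cases ?_ (fun i => ?_) i
      · have := hW1 a x hx
        rw [← h4] at this
        refine Submodule.span_mono ?_ this
        rintro _ ⟨j, rfl⟩
        exact ⟨j.succ, Fin.succ_pos j, rfl⟩
      · refine Submodule.span_mono ?_ (h5 a i)
        rintro _ ⟨j, hj, rfl⟩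
        exact ⟨j.succ, Fin.succ_lt_succ_iff.2 hj, rfl⟩

/-- Triangularisation. -/
theorem PI.tri [Module.Finite k A] {n : Type} [Fintype n] (h : PI k A)
    (ρ : A →ₐ[k] End F (n → F)) (σ : A →ₐ[k] F) : ∃ (b : Basis n F (n → F)) (ht : n → ℕ),
      Injective ht ∧ ∀ a q p, ¬ ht p < ht q → b.repr (ρ a (b p) - σ a • b p) q = 0 := by
  obtain ⟨m, v, h1, h2, h3⟩ := h.tri_aux ρ σ _ ⊤ (inv_top ρ) rfl
  let b0 : Basis (Fin m) F (n → F) := Basis.mk h1 h2.ge
  have hb : ⇑b0 = v := Basis.coe_mk _ _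
  let e : Fin m ≃ n := b0.indexEquiv (Pi.basisFun F n)
  refine ⟨b0.reindex e, fun p => (e.symm p : ℕ),
    fun p q hpq => e.symm.injective (Fin.ext hpq), fun a q p hlt => ?_⟩
  have := h3 a (e.symm p)
  rw [← hb, Basis.mem_span_image] at this
  rw [Basis.reindex_apply, Basis.repr_reindex_apply]
  by_contra hne
  exact hlt (this (Finsupp.mem_support_iff.2 hne))

end rep

end LocA

end Pool.Agent.MP_bd94e8_al.H89
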