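import Pool.Agent.MP_bd94e8_al.H63B.Loc1

/-!
The structure of one vertex.
-/

set_option autoImplicit false
set_option linter.unusedSectionVars false
set_option linter.unusedVariables false
set_option linter.unusedSimpArgs false

namespace Pool.Agent.MP_bd94e8_al.H89

open Module Function

namespace LocA

variable {k F : Type} [Field k] [Field F] [Algebra k F] [FiniteDimensional k F]
  {n : Type} [Fintype n] [DecidableEq n]

/-- The action on columns. -/
noncomputable def rho (R : Subalgebra k (Matrix n n F)) : R →ₐ[k] End F (n → F) :=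
  ((Matrix.toLinAlgEquiv' (R := F) (n := n)).restrictScalars k).toAlgHom.comp R.val

theorem rho_apply (R : Subalgebra k (Matrix n n F)) (a : R) (x : n → F) :
    rho R a x = a.1.mulVec x := rfl

theorem rho_eq (R : Subalgebra k (Matrix n n F)) (a : R) : rho R a = Matrix.toLin' a.1 := rfl

/-- A valued vertex. -/
structure VA (R : Subalgebra k (Matrix n n F)) : Prop where
  div : ∀ b ∈ R, b ≠ 0 → ∃ b' ∈ R, b' * b = 1
  col : ∀ W : Submodule F (n → F), (∀ b ∈ R, ∀ x ∈ W, b.mulVec x ∈ W) → W = ⊥ ∨ W = ⊤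
  row : ∀ W : Submodule F (n → F), (∀ b ∈ R, ∀ x ∈ W, Matrix.vecMul x b ∈ W) → W = ⊥ ∨ W = ⊤
  num : ∃ y : ℕ, Fintype.card n * finrank k F = y * finrank k R ∧ 2 ≤ Fintype.card n * y

/-- A vertex with a flag. -/
structure NV (R : Subalgebra k (Matrix n n F)) (ht : n → ℕ) : Prop where
  inj : Injective ht
  three : Fintype.card n ≤ 3
  tri : ∀ b ∈ R, ∀ q p, b q p ≠ 0 → ht p ≤ ht q
  diag : ∀ b ∈ R, ∀ p q, b p p = b q q
  onto : ∀ p (c : F), ∃ b ∈ R, b p p = c
  step : ∀ p q, ht p < ht q → ∃ b ∈ R, b q p ≠ 0 ∧ b p p = 0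

variable {R : Subalgebra k (Matrix n n F)}

theorem test (h : PI k R) (hH : Hyp R) {T O : Type} [Fintype T] [DecidableEq T] [Nonempty T]
    [Fintype O] (tp : T → O) (α : Matrix n T F) (γ : Matrix T n F) (h1 : γ * α = 1)
    (h2 : ∀ a : R, IsNilpotent a → ∀ t' t, tp t' = tp t → (γ * a.1 * α) t' t = 0) (d : ℕ)
    (hd : d ≠ 0) (v : O → ℕ) :
    (∑ t, d * v (tp t)) * finrank k F < (∑ o, v o ^ 2) * finrank k F + d * d * h.fA := by
  let Φ : R →ₗ[k] Matrix T T F :=
    { toFun := fun a => mask (fun t' t => tp t' = tp t) (γ * a.1 * α)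
      map_add' := fun a b => by
        ext t' t
        simp only [mask_apply, Matrix.add_apply, Subalgebra.coe_add, Matrix.mul_add,
          Matrix.add_mul]
        split_ifs <;> simp
      map_smul' := fun c a => by
        ext t' t
        simp only [mask_apply, Matrix.smul_apply, Subalgebra.coe_smul, Matrix.mul_smul,
          Matrix.smul_mul, RingHom.id_apply]
        split_ifs <;> simp }
  have h3 : finrank k (LinearMap.range Φ) ≤ h.fA := h.range_le Φ fun a ha => by
    ext t' t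
    change mask _ _ t' t = 0
    rw [mask_apply]
    split_ifs with e
    · exact h2 a ha t' t e
    · rfl
  have h4 := hH F LinearMap.id rfl T Unit O (fun _ => ()) tp
    (fun _ => ⟨Classical.arbitrary T, rfl⟩) α γ (fun t t' _ => by rw [h1])
    (fun _ _ => LinearMap.range Φ) (fun i j b hb => ⟨⟨b, hb⟩, by
      ext t' t
      change mask _ _ t' t = _
      simp [mask_apply]⟩) (fun _ => d) v (Or.inl fun e => hd (congrFun e ()))
  simp only [Finset.univ_unique, Finset.sum_singleton] at h4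
  exact h4.trans_le (Nat.add_le_add_left (Nat.mul_le_mul_left _ h3) _)

theorem simp_pos {A : Type} [Ring A] [Algebra k A] {x : ℕ} {ρ : A →ₐ[k] End F (Fin x → F)}
    (h : Simp ρ) : 0 < x := by
  have := h.1
  have h2 : 0 < finrank F (Fin x → F) := Module.finrank_pos
  rwa [Module.finrank_fin_fun] at h2

theorem mat_eq {a b : Type} [Fintype a] [DecidableEq a] [Fintype b] (γ : (n → F) →ₗ[F] (b → F))
    (c : Matrix n n F) (α : (a → F) →ₗ[F] (n → F)) :
    LinearMap.toMatrix' γ * c * LinearMap.toMatrix' α =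
      LinearMap.toMatrix' (γ ∘ₗ Matrix.toLin' c ∘ₗ α) := by
  rw [LinearMap.toMatrix'_comp, LinearMap.toMatrix'_comp, LinearMap.toMatrix'_toLin',
    Matrix.mul_assoc]

theorem testA [Nonempty n] (h : PI k R) (hH : Hyp R) (hns : ¬ Simp (rho R)) :
    Nonempty (R →ₐ[k] F) ∧ h.fA = finrank k F := by
  obtain ⟨W, hW, hW0, hW1⟩ : ∃ W, Inv (rho R) W ∧ W ≠ ⊥ ∧ W ≠ ⊤ := by
    by_contra hc
    refine hns ⟨inferInstance, fun W hW => ?_⟩
    by_contra hc'
    rw [not_or] at hc'
    exact hc ⟨W, hW, hc'⟩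
  obtain ⟨U1, a1, a2, a3, a4⟩ := exists_min _ hW hW0
  obtain ⟨U2, b1, b2, b3, b4⟩ := exists_max _ hW (lt_top_iff_ne_top.2 hW1)
  obtain ⟨x1, α1, γ1, ρ1, c1, c2, c3, c4, c5⟩ := subrep _ (inv_bot _) a1 a3 a4
  obtain ⟨x2, α2, γ2, ρ2, d1, d2, d3, d4, d5⟩ := subrep _ b1 (inv_top _) b3 b4
  obtain ⟨y1, e1⟩ := h.num c5
  obtain ⟨y2, e2⟩ := h.num d5
  have p1 := simp_pos c5
  have p2 := simp_pos d5
  have hz : ∀ w ∈ U1, γ2 w = 0 := fun w hw => (d3 w trivial).2 (b2 (a2 hw))
  let γ1' := γ1 - γ1 ∘ₗ α2 ∘ₗ γ2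
  have hγ : ∀ w, γ1' w = γ1 w - γ1 (α2 (γ2 w)) := fun w => rfl
  have := isEmpty_or_nonempty (Fin x1 ⊕ Fin x2)
  have : Nonempty (Fin x1 ⊕ Fin x2) := ⟨Sum.inl ⟨0, p1⟩⟩
  have ht := test h hH (T := Fin x1 ⊕ Fin x2) (O := Bool) (Sum.elim (fun _ => false) fun _ => true)
    (Matrix.fromCols (LinearMap.toMatrix' α1) (LinearMap.toMatrix' α2))
    (Matrix.fromRows (LinearMap.toMatrix' γ1') (LinearMap.toMatrix' γ2)) (by
      rw [Matrix.fromRows_mul_fromCols, ← Matrix.fromBlocks_one]
      simp only [← LinearMap.toMatrix'_comp]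
      have q1 : γ1' ∘ₗ α1 = LinearMap.id := LinearMap.ext fun y => by
        rw [LinearMap.comp_apply, hγ, hz _ (c2 y), c1]; simp
      have q2 : γ1' ∘ₗ α2 = 0 := LinearMap.ext fun y => by
        rw [LinearMap.comp_apply, hγ, d1]; simp
      have q3 : γ2 ∘ₗ α1 = 0 := LinearMap.ext fun y => hz _ (c2 y)
      have q4 : γ2 ∘ₗ α2 = LinearMap.id := LinearMap.ext d1
      rw [q1, q2, q3, q4]
      simp) (fun a ha t' t e => by
      rw [Matrix.fromRows_mul, Matrix.fromRows_mul_fromCols]
      simp only [mat_eq]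
      have q1 : γ1' ∘ₗ Matrix.toLin' a.1 ∘ₗ α1 = 0 := LinearMap.ext fun y => by
        change γ1' (rho R a (α1 y)) = 0
        rw [hγ, hz _ (a1 a _ (c2 y)), ← c4 a _ (c2 y), h.act_zero c5 ha]; simp
      have q4 : γ2 ∘ₗ Matrix.toLin' a.1 ∘ₗ α2 = 0 := LinearMap.ext fun y => by
        change γ2 (rho R a (α2 y)) = 0
        rw [← d4 a _ (d2 y), h.act_zero d5 ha]; simp
      rw [q1, q4]
      rcases t' with t' | t' <;> rcases t with t | t <;> simp at e ⊢) 2 two_ne_zero
      (fun o => cond o x2 x1)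
  simp only [Fintype.sum_sum_type, Sum.elim_inl, Sum.elim_inr, cond_false, cond_true,
    Finset.sum_const, Finset.card_univ, Fintype.card_fin, smul_eq_mul, Fintype.sum_bool] at ht
  have f1 := Module.finrank_fin_fun F (n := x1)
  have f2 := Module.finrank_fin_fun F (n := x2)
  rw [f1] at e1
  rw [f2] at e2
  have hf : 0 < finrank k F := Module.finrank_pos
  have hlt : (x1 * y1 + x2 * y2) * h.fA < 4 * h.fA := by
    have g1 : x1 * x1 * finrank k F = x1 * y1 * h.fA := by rw [mul_assoc, e1, mul_assoc]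
    have g2 : x2 * x2 * finrank k F = x2 * y2 * h.fA := by rw [mul_assoc, e2, mul_assoc]
    nlinarith
  have hlt' := Nat.lt_of_mul_lt_mul_right hlt
  have q1 : 0 < y1 := Nat.pos_of_ne_zero fun e => by
    rw [e, zero_mul] at e1; exact (Nat.mul_pos p1 hf).ne' e1
  have q2 : 0 < y2 := Nat.pos_of_ne_zero fun e => by
    rw [e, zero_mul] at e2; exact (Nat.mul_pos p2 hf).ne' e2
  have r1 := Nat.mul_pos p1 q1
  have r2 := Nat.mul_pos p2 q2
  by_cases s : x1 * y1 = 1
  · obtain ⟨s1, s2⟩ := mul_eq_one.1 s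
    rw [s1, s2, one_mul, one_mul] at e1
    exact ⟨exists_sigma ρ1 (f1.trans s1), e1.symm⟩
  · obtain ⟨s1, s2⟩ := mul_eq_one.1 (show x2 * y2 = 1 by omega)
    rw [s1, s2, one_mul, one_mul] at e2
    exact ⟨exists_sigma ρ2 (f2.trans s1), e2.symm⟩

theorem nv (h : PI k R) (hH : Hyp R) (σ : R →ₐ[k] F) (hf : h.fA = finrank k F) :
    ∃ (g g' : Matrix n n F) (ht : n → ℕ), g * g' = 1 ∧ g' * g = 1 ∧
      ∀ R' : Subalgebra k (Matrix n n F), (∀ b, b ∈ R' ↔ g' * b * g ∈ R) → NV R' ht := by
  obtain ⟨b, ht, hi, hb⟩ := h.tri (rho R) σ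
  set g := b.toMatrix (Pi.basisFun F n) with hg
  set g' := (Pi.basisFun F n).toMatrix b with hg'
  have h1 : g * g' = 1 := Basis.toMatrix_mul_toMatrix_flip _ _
  have h2 : g' * g = 1 := Basis.toMatrix_mul_toMatrix_flip _ _
  have key : ∀ (a : R) q p, ¬ ht p < ht q →
      (g * a.1 * g') q p = σ a * (1 : Matrix n n F) q p := by
    intro a q p hlt
    have e1 : a.1 = LinearMap.toMatrix (Pi.basisFun F n) (Pi.basisFun F n) (rho R a) := by
      rw [LinearMap.toMatrix_eq_toMatrix', rho_eq, LinearMap.toMatrix'_toLin']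
    have e2 := hb a q p hlt
    rw [map_sub, map_smul, Finsupp.sub_apply, sub_eq_zero, Finsupp.smul_apply, Basis.repr_self,
      smul_eq_mul] at e2
    rw [e1, hg, hg', basis_toMatrix_mul_linearMap_toMatrix_mul_basis_toMatrix,
      LinearMap.toMatrix_apply, e2, Finsupp.single_apply, Matrix.one_apply]
    simp only [eq_comm]
  have hpos : 0 < finrank k F := Module.finrank_pos
  refine ⟨g, g', ht, h1, h2, fun R' hR' => ?_⟩
  have down : ∀ c ∈ R', ∃ a : R, g * a.1 * g' = c := fun c hc => ⟨⟨_, (hR' c).1 hc⟩, by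
    simp only
    rw [← Matrix.mul_assoc, ← Matrix.mul_assoc, h1, Matrix.one_mul, Matrix.mul_assoc, h1,
      Matrix.mul_one]⟩
  have up : ∀ a : R, g * a.1 * g' ∈ R' := fun a => (hR' _).2 (by
    rw [← Matrix.mul_assoc, ← Matrix.mul_assoc, h2, Matrix.one_mul, Matrix.mul_assoc, h2,
      Matrix.mul_one]
    exact a.2)
  have dg : ∀ (a : R) p, (g * a.1 * g') p p = σ a := fun a p => by
    rw [key a p p (lt_irrefl _), Matrix.one_apply_eq, mul_one]
  refine ⟨hi, ?_, fun c hc q p hne => ?_, fun c hc p q => ?_, fun p c => ?_, fun p q hlt => ?_⟩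
  · rcases isEmpty_or_nonempty n with he | he
    · simp
    · have := test h hH (T := n) (O := n) id g' g h1 (fun a ha t' t e => by
        obtain rfl : t' = t := e
        rw [dg, (h.sigma_iff σ a).1 ha]) 2 two_ne_zero fun _ => 1
      simp only [Finset.sum_const, Finset.card_univ, smul_eq_mul, hf] at this
      have h5 : Fintype.card n * finrank k F < 4 * finrank k F := by nlinarith
      have := Nat.lt_of_mul_lt_mul_right h5
      omega
  · obtain ⟨a, rfl⟩ := down c hc
    by_contra hlt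
    rw [key a q p (by omega)] at hne
    have : q = p := by
      by_contra e
      exact hne (by rw [Matrix.one_apply_ne e, mul_zero])
    exact hlt (this ▸ le_rfl)
  · obtain ⟨a, rfl⟩ := down c hc
    rw [dg, dg]
  · obtain ⟨a, rfl⟩ := h.sigma_surj σ hf c
    exact ⟨_, up a, dg a p⟩
  · by_contra hc
    have hpq : p ≠ q := fun e => by rw [e] at hlt; exact lt_irrefl _ hlt
    let π : Bool → n := fun t => cond t q p
    have hπ : Injective π := by
      intro t t' e
      cases t <;> cases t' <;> simp_all [π]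
    have := test h hH (T := Bool) (O := Unit) (fun _ => ()) (g'.submatrix id π)
      (g.submatrix π id) (by
        rw [← Matrix.submatrix_one π hπ, ← h1]; rfl) (fun a ha t' t _ => by
        change (g * a.1 * g') (π t') (π t) = 0
        have hs := (h.sigma_iff σ a).1 ha
        by_cases hl : ht (π t) < ht (π t')
        · by_contra hne
          cases t <;> cases t' <;> simp only [π, cond_true, cond_false] at hl hne
          · omega
          · exact hc ⟨_, up a, hne, by rw [dg, hs]⟩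
          · omega
          · omega
        · rw [key a _ _ hl, hs, zero_mul]) 1 one_ne_zero fun _ => 1
    simp [hf] at this
    omega

theorem va (h : PI k R) (hs : Simp (rho R)) {y : ℕ}
    (hy : Fintype.card n * finrank k F = y * h.fA) (h2 : 2 ≤ Fintype.card n * y) : VA R := by
  have hn : ∀ a : R, IsNilpotent a ↔ a = 0 := fun a => by
    rw [h.act_zero_iff hs, rho_eq, map_eq_zero_iff _ Matrix.toLin'.injective]
    exact ZeroMemClass.coe_eq_zero
  have hc : ∀ W : Submodule F (n → F), (∀ b ∈ R, ∀ x ∈ W, b.mulVec x ∈ W) → W = ⊥ ∨ W = ⊤ :=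
    fun W hW => hs.2 W fun a x hx => hW a.1 a.2 x hx
  refine ⟨fun b hb hne => ?_, hc, fun W hW => ?_, y, ?_, h2⟩
  · rcases h.nil_or_unit ⟨b, hb⟩ with h0 | ⟨u, hu⟩
    · exact absurd (congrArg Subtype.val ((hn _).1 h0)) hne
    · refine ⟨(↑u⁻¹ : R).1, (↑u⁻¹ : R).2, ?_⟩
      have := congrArg Subtype.val (Units.inv_mul u)
      rw [hu] at this
      exact this
  · let W' : Submodule F (n → F) :=
      { carrier := {x | ∀ w ∈ W, w ⬝ᵥ x = 0}
        add_mem' := fun {x y} hx hy w hw => by rw [dotProduct_add, hx w hw, hy w hw, add_zero]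
        zero_mem' := fun w _ => dotProduct_zero w
        smul_mem' := fun c x hx w hw => by rw [dotProduct_smul, hx w hw, smul_zero] }
    rcases hc W' (fun b hb x hx w hw => by
      rw [Matrix.dotProduct_mulVec]; exact hx _ (hW b hb w hw)) with h0 | h1
    · right
      rw [eq_top_iff]
      intro z _
      by_contra hz
      obtain ⟨φ, hφ, hφ'⟩ := Submodule.exists_dual_map_eq_bot_of_notMem hz inferInstance
      have e : ∀ w, φ w = w ⬝ᵥ fun i => φ fun j => if i = j then 1 else 0 := fun w => by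
        rw [LinearMap.pi_apply_eq_sum_univ]; rfl
      have : (fun i => φ fun j => if i = j then 1 else 0) ∈ W' := fun w hw => by
        rw [← e]
        have : φ w ∈ W.map φ := ⟨w, hw, rfl⟩
        rwa [hφ'] at this
      rw [h0, Submodule.mem_bot] at this
      exact hφ (by rw [e, this, dotProduct_zero])
    · left
      rw [eq_bot_iff]
      intro w hw
      rw [Submodule.mem_bot]
      ext i
      have : Pi.single i (1 : F) ∈ W' := by rw [h1]; trivial
      simpa using this w hw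
  · have := h.range_eq LinearMap.id hn
    rw [LinearMap.range_id, finrank_top] at this
    rw [hy, this]

/-- The structure of one vertex. -/
theorem one_vertex (h : PI k R) (hH : Hyp R) :
    ∃ (g g' : Matrix n n F) (ht : n → ℕ), g * g' = 1 ∧ g' * g = 1 ∧
      ∀ R' : Subalgebra k (Matrix n n F), (∀ b, b ∈ R' ↔ g' * b * g ∈ R) → VA R' ∨ NV R' ht := by
  have hA : (Nonempty (R →ₐ[k] F) ∧ h.fA = finrank k F) → ∃ (g g' : Matrix n n F) (ht : n → ℕ),
      g * g' = 1 ∧ g' * g = 1 ∧ ∀ R' : Subalgebra k (Matrix n n F),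
        (∀ b, b ∈ R' ↔ g' * b * g ∈ R) → VA R' ∨ NV R' ht := by
    rintro ⟨⟨σ⟩, hf⟩
    obtain ⟨g, g', ht, h1, h2, h3⟩ := nv h hH σ hf
    exact ⟨g, g', ht, h1, h2, fun R' hR' => Or.inr (h3 R' hR')⟩
  rcases isEmpty_or_nonempty n with he | he
  · exact ⟨1, 1, fun _ => 0, mul_one _, mul_one _, fun R' _ => Or.inr
      ⟨fun p => he.elim p, by simp, fun _ _ p => he.elim p, fun _ _ p => he.elim p,
        fun p => he.elim p, fun p => he.elim p⟩⟩
  by_cases hs : Simp (rho R)
  · obtain ⟨y, hy⟩ := h.num hs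
    have f1 : finrank F (n → F) = Fintype.card n := Module.finrank_fintype_fun_eq_card F
    rw [f1] at hy
    by_cases h2 : 2 ≤ Fintype.card n * y
    · refine ⟨1, 1, fun _ => 0, mul_one _, mul_one _, fun R' hR' => Or.inl ?_⟩
      obtain rfl : R' = R := by
        ext b; rw [hR', one_mul, mul_one]
      exact va h hs hy h2
    · have hf : 0 < finrank k F := Module.finrank_pos
      have p1 : 0 < Fintype.card n := Fintype.card_pos
      have q1 : 0 < y := Nat.pos_of_ne_zero fun e => by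
        rw [e, zero_mul] at hy; exact (Nat.mul_pos p1 hf).ne' hy
      have r1 := Nat.mul_pos p1 q1
      obtain ⟨s1, s2⟩ := mul_eq_one.1 (show Fintype.card n * y = 1 by omega)
      rw [s1, s2, one_mul, one_mul] at hy
      exact hA ⟨exists_sigma (rho R) (f1.trans s1), hy.symm⟩
  · exact hA (testA h hH hs)

end LocA

end Pool.Agent.MP_bd94e8_al.H89
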